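import Mathlib
import Pool.Agent.Helper30.KC.GoalsT
import Pool.Agent.Helper39.KC.AR

/-!
Project KT, packet DS: balloons at far away points of the shortest cycle are disjoint.
-/

set_option autoImplicit false

namespace Pool.Agent.Helper86.KT

open scoped Classical
open Finset
open Pool.Agent.Helper94.KC Pool.Agent.Helper30.KC
open Pool.Agent.Helper39.KC (mem_support_of_wed card_wed)

variable {V : Type} [Fintype V] {T : Finset (Finset V)}

theorem mem_vs {D : Finset (Finset V)} {v : V} : v ∈ vs D ↔ ∃ t ∈ D, v ∈ t := by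
  simp [vs]

/-- all triangles at a vertex off the boundary cycle are on the same side -/
theorem side (hDB : StmtDB) (hT : Surf T) {y : V} (w : (sk T).Walk y y) (hw : w.IsCycle)
    {D : Finset (Finset V)} (hD : Disc T D (wed w)) {v : V} (hv : v ∉ w.support)
    {t t' : Finset V} (ht : t ∈ D) (ht' : t' ∈ T) (hvt : v ∈ t) (hvt' : v ∈ t') : t' ∈ D := by
  have hne : (wed w).Nonempty := by
    rw [← card_pos, card_wed w hw.isTrail]
    exact lt_of_lt_of_le (by norm_num) hw.three_le_length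
  refine (hDB V T hT D (wed w) hD hne).2 v ?_ t (hD.sub ht) t' ht' hvt hvt' ht
  intro e he hve
  exact hv (mem_support_of_wed w he hve)

theorem step (hDB : StmtDB) (hT : Surf T) {y : V} (w : (sk T).Walk y y) (hw : w.IsCycle)
    {D : Finset (Finset V)} (hD : Disc T D (wed w)) {v v' : V} (hv : v ∉ w.support)
    (hvD : v ∈ vs D) (h : (sk T).Adj v v') : v' ∈ vs D := by
  obtain ⟨-, t, ht, h1, h2⟩ := h
  obtain ⟨t0, ht0, h3⟩ := mem_vs.1 hvD
  exact mem_vs.2 ⟨t, side hDB hT w hw hD hv ht0 ht h3 h1, h2⟩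

theorem along (hDB : StmtDB) (hT : Surf T) {y : V} (w : (sk T).Walk y y) (hw : w.IsCycle)
    {D : Finset (Finset V)} (hD : Disc T D (wed w)) {z x : V} (p : (sk T).Walk z x)
    (hp : ∀ u ∈ p.support, u ∉ w.support) (hz : z ∈ vs D) : x ∈ vs D := by
  induction p with
  | nil => exact hz
  | cons h q ih =>
    refine ih ?_ ?_
    · intro u hu
      exact hp u (by rw [SimpleGraph.Walk.support_cons]; exact List.mem_cons_of_mem _ hu)
    · exact step hDB hT w hw hD (hp _ (by rw [SimpleGraph.Walk.support_cons]; simp)) hz h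

/-- a far away disc does not come near `x'` -/
theorem far (hAR : StmtAR) (hDB : StmtDB) (hT : Surf T) {x₀ : V} (w : (sk T).Walk x₀ x₀)
    (hw : Shortest T w) {x x' : V} (hx' : x' ∈ w.support) (hd : 40 < (sk T).dist x x')
    {y : V} (w1 : (sk T).Walk y y) (hw1 : w1.IsCycle) (hl : w1.length ≤ 12)
    (hb : ∀ z ∈ w1.support, (sk T).dist x z ≤ 6) {D : Finset (Finset V)}
    (hD : Disc T D (wed w1)) {z : V} (hz : (sk T).dist x' z ≤ 6) : z ∉ vs D := by
  intro hzD
  have hc : (sk T).Connected := hT.conn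
  obtain ⟨p, hp⟩ := hc.exists_walk_length_eq_dist z x'
  have hlen : p.length ≤ 6 := by
    rw [hp, SimpleGraph.dist_comm]
    exact hz
  have key : ∀ u ∈ p.support, u ∉ w1.support := by
    intro u hu hu1
    have h1 := hb u hu1
    have h2 : (sk T).dist u x' ≤ 6 := by
      refine le_trans (SimpleGraph.dist_le (p.dropUntil u hu)) ?_
      exact le_trans (SimpleGraph.Walk.length_dropUntil_le p hu) hlen
    have h3 := hc.dist_triangle (u := x) (v := u) (w := x')
    omega
  have hx'D : x' ∈ vs D := along hDB hT w1 hw1 hD p key hzD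
  have hx'w : x' ∉ w1.support := key x' p.end_mem_support
  obtain ⟨q, hq, hq2⟩ := hAR V T hT x₀ w hw x' hx' D y w1 hw1 hD (mem_vs.1 hx'D) hx'w
  have h1 := hb q hq
  have h3 := hc.dist_triangle (u := x) (v := q) (w := x')
  have h4 : (sk T).dist q x' = (sk T).dist x' q := SimpleGraph.dist_comm
  omega

/-- Packet DS. -/
theorem pDS (hAR : StmtAR) (hDB : StmtDB) (hEV : StmtEV) : StmtDS := by
  intro V _ T hT x₀ w hw x hx x' hx' hd y₁ y₂ w₁ w₂ D₁ D₂ hc₁ hc₂ hl₁ hl₂ hb₁ hb₂ hD₁ hD₂ v hv1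
    hvw1 hv2 hvw2
  have hd' : 40 < (sk T).dist x' x := by rwa [SimpleGraph.dist_comm]
  have ha : ∀ z ∈ w₂.support, z ∉ vs D₁ := fun z hz =>
    far hAR hDB hT w hw hx' hd w₁ hc₁ hl₁ hb₁ hD₁ (hb₂ z hz)
  have hb : ∀ z ∈ w₁.support, z ∉ vs D₂ := fun z hz =>
    far hAR hDB hT w hw hx hd' w₂ hc₂ hl₂ hb₂ hD₂ (hb₁ z hz)
  obtain ⟨-, -, -, -, hTT, hE6⟩ := hEV V T hT
  have hne1 : (wed w₁).Nonempty := by
    rw [← card_pos, card_wed w₁ hc₁.isTrail]
    exact lt_of_lt_of_le (by norm_num) hc₁.three_le_length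
  have hEsub : D₁ ∩ D₂ ⊆ T := fun t ht => hD₁.sub (mem_inter.1 ht).1
  have hbE : bd T (D₁ ∩ D₂) = ∅ := by
    rw [eq_empty_iff_forall_notMem]
    intro e he
    rw [bd, mem_filter] at he
    obtain ⟨heT, hodd⟩ := he
    have heT' := heT
    rw [ed, mem_filter] at heT'
    obtain ⟨-, hcard, t₀, ht₀, het₀⟩ := heT'
    obtain ⟨a, b, hab, rfl⟩ := card_eq_two.1 hcard
    have hadj : (sk T).Adj a b := ⟨hab, t₀, ht₀, het₀ (by simp), het₀ (by simp)⟩
    have htwo := hT.two a b hadj
    have hset : ∀ D : Finset (Finset V), D.filter (fun t => ({a, b} : Finset V) ⊆ t) =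
        D.filter (fun t => a ∈ t ∧ b ∈ t) := by
      intro D
      refine filter_congr (fun t _ => ?_)
      rw [insert_subset_iff, singleton_subset_iff]
    -- `t ∈ E` above the edge
    have hpos : 0 < ((D₁ ∩ D₂).filter (fun t => ({a, b} : Finset V) ⊆ t)).card := hodd.pos
    obtain ⟨t, ht⟩ := card_pos.1 hpos
    rw [mem_filter, mem_inter] at ht
    obtain ⟨⟨ht1, ht2⟩, htab⟩ := ht
    have hat : a ∈ t := htab (by simp)
    by_cases h1 : ({a, b} : Finset V) ∈ bd T D₁
    · rw [hD₁.bdy] at h1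
      have : a ∈ w₁.support := mem_support_of_wed w₁ h1 (by simp)
      exact hb a this (mem_vs.2 ⟨t, ht2, hat⟩)
    by_cases h2 : ({a, b} : Finset V) ∈ bd T D₂
    · rw [hD₂.bdy] at h2
      have : a ∈ w₂.support := mem_support_of_wed w₂ h2 (by simp)
      exact ha a this (mem_vs.2 ⟨t, ht1, hat⟩)
    -- both are even, so both contain all triangles at the edge
    have full : ∀ D : Finset (Finset V), D ⊆ T → t ∈ D → ({a, b} : Finset V) ∉ bd T D →
        D.filter (fun t => ({a, b} : Finset V) ⊆ t) =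
          T.filter (fun t => ({a, b} : Finset V) ⊆ t) := by
      intro D hDT htD hnb
      have hev : ¬ Odd (D.filter (fun t => ({a, b} : Finset V) ⊆ t)).card := by
        intro ho
        exact hnb (by rw [bd, mem_filter]; exact ⟨heT, ho⟩)
      rw [Nat.not_odd_iff_even] at hev
      refine eq_of_subset_of_card_le (filter_subset_filter _ hDT) ?_
      rw [hset T, htwo]
      have hp : 0 < (D.filter (fun t => ({a, b} : Finset V) ⊆ t)).card :=
        card_pos.2 ⟨t, mem_filter.2 ⟨htD, htab⟩⟩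
      obtain ⟨k, hk⟩ := hev
      omega
    have f1 := full D₁ hD₁.sub ht1 h1
    have f2 := full D₂ hD₂.sub ht2 h2
    have f3 : (D₁ ∩ D₂).filter (fun t => ({a, b} : Finset V) ⊆ t) =
        T.filter (fun t => ({a, b} : Finset V) ⊆ t) := by
      rw [filter_inter_distrib, f1, f2, inter_self]
    rw [f3, hset T, htwo] at hodd
    exact absurd hodd (by decide)
  have hE0 : D₁ ∩ D₂ = ∅ := by
    rcases hE6 _ hEsub hbE with h | h
    · exact h
    · exfalso
      have h1 : D₁ = T := by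
        refine subset_antisymm hD₁.sub ?_
        rw [← h]
        exact inter_subset_left
      have h2 := hD₁.bdy
      rw [h1, hTT] at h2
      rw [← h2] at hne1
      exact not_nonempty_empty hne1
  obtain ⟨t, ht, hvt⟩ := mem_vs.1 hv1
  obtain ⟨t', ht', hvt'⟩ := mem_vs.1 hv2
  have h1 : t ∈ D₂ := side hDB hT w₂ hc₂ hD₂ hvw2 ht' (hD₁.sub ht) hvt' hvt
  have h2 : t ∈ D₁ ∩ D₂ := mem_inter.2 ⟨ht, h1⟩
  rw [hE0] at h2
  exact notMem_empty t h2

end Pool.Agent.Helper86.KT
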